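import Pool.Agent.D0H96.UR.Stm

/-!
Project UR (helper96): EX, existence of solutions of linear systems with linear growth.
-/

set_option autoImplicit false

open Filter Topology MeasureTheory Set

namespace Pool.Agent.D0H87.UR

open Pool.Agent.D0H96.UR

/-- Comparison with zero for a scalar differential inequality. -/
theorem cmp {y y' : ℝ → ℝ} {r T : ℝ} (hc : ContinuousOn y (Icc 0 T))
    (hd : ∀ t ∈ Ioo 0 T, HasDerivAt y (y' t) t) (hy : ∀ t ∈ Ioo 0 T, y' t ≤ - r * y t) (h0 : y 0 ≤ 0) :
    ∀ t ∈ Icc 0 T, y t ≤ 0 := by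
  intro t ht
  have hE : ∀ t, HasDerivAt (fun t => Real.exp (r * t)) (Real.exp (r * t) * r) t := by
    intro t
    have h1 : HasDerivAt (fun t : ℝ => r * t) r t := by
      simpa using (hasDerivAt_id t).const_mul r
    exact h1.exp
  have hanti : AntitoneOn (fun t => Real.exp (r * t) * y t) (Icc 0 T) := by
    apply antitoneOn_of_deriv_nonpos (convex_Icc 0 T)
    · exact (by fun_prop : Continuous fun t : ℝ => Real.exp (r*t)).continuousOn.mul hc
    · rw [interior_Icc]
      intro t ht
      exact ((hE t).mul (hd t ht)).differentiableAt.differentiableWithinAt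
    · rw [interior_Icc]
      intro t ht
      have h2 : HasDerivAt (fun t => Real.exp (r * t) * y t) (Real.exp (r * t) * r * y t + Real.exp (r * t) * y' t) t :=
        (hE t).mul (hd t ht)
      rw [h2.deriv]
      have h3 := hy t ht
      have h4 := Real.exp_pos (r * t)
      nlinarith
  have h1 := hanti (left_mem_Icc.2 (ht.1.trans ht.2)) ht ht.1
  simp only [mul_zero, Real.exp_zero, one_mul] at h1
  have h4 := Real.exp_pos (r * t)
  by_contra h
  push Not at h
  nlinarith [mul_pos h4 h]

variable {X σ : Type}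

/-- The approximations. -/
noncomputable def P (S : Sys X σ) (F : X → ℝ) (G : ℝ → X → ℝ) : ℕ → ℝ → X → ℝ
  | 0 => fun _ _ => 0
  | (n + 1) => fun t x => Real.exp (-(S.r x * t)) *
      (F x + ∫ u in (0 : ℝ)..t, Real.exp (S.r x * u) * (G u x + ∑ s ∈ S.mv x, P S F G n u (S.act s x)))

theorem P_cont (S : Sys X σ) (F : X → ℝ) (G : ℝ → X → ℝ) (hG : ∀ x, Continuous fun t => G t x) (n : ℕ) :
    ∀ x, Continuous fun t => P S F G n t x := by
  induction n with
  | zero => intro x; simp only [P]; exact continuous_const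
  | succ n ih =>
    intro x
    simp only [P]
    have h1 : Continuous fun u => Real.exp (S.r x * u) * (G u x + ∑ s ∈ S.mv x, P S F G n u (S.act s x)) := by
      refine Continuous.mul (by fun_prop) ((hG x).add ?_)
      exact continuous_finsetSum _ fun s _ => ih _
    have h2 : Continuous fun t => ∫ u in (0 : ℝ)..t, Real.exp (S.r x * u) *
        (G u x + ∑ s ∈ S.mv x, P S F G n u (S.act s x)) :=
      intervalIntegral.continuous_primitive (fun a b => h1.intervalIntegrable a b) 0
    exact Continuous.mul (by fun_prop) (continuous_const.add h2)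

theorem P_deriv (S : Sys X σ) (F : X → ℝ) (G : ℝ → X → ℝ) (hG : ∀ x, Continuous fun t => G t x) (n : ℕ)
    (x : X) (t : ℝ) : HasDerivAt (fun t => P S F G (n + 1) t x)
      (-(S.r x * P S F G (n + 1) t x) + (G t x + ∑ s ∈ S.mv x, P S F G n t (S.act s x))) t := by
  have h1 : Continuous fun u => Real.exp (S.r x * u) * (G u x + ∑ s ∈ S.mv x, P S F G n u (S.act s x)) := by
    refine Continuous.mul (by fun_prop) ((hG x).add ?_)
    exact continuous_finsetSum _ fun s _ => P_cont S F G hG n _
  have h2 : HasDerivAt (fun t => ∫ u in (0 : ℝ)..t, Real.exp (S.r x * u) *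
      (G u x + ∑ s ∈ S.mv x, P S F G n u (S.act s x)))
      (Real.exp (S.r x * t) * (G t x + ∑ s ∈ S.mv x, P S F G n t (S.act s x))) t :=
    intervalIntegral.integral_hasDerivAt_right (h1.intervalIntegrable _ _)
      (h1.stronglyMeasurableAtFilter _ _) h1.continuousAt
  have h3 : HasDerivAt (fun t : ℝ => Real.exp (-(S.r x * t))) (Real.exp (-(S.r x * t)) * (-(S.r x))) t := by
    have h4 : HasDerivAt (fun t : ℝ => (-(S.r x)) * t) (-(S.r x)) t := by
      simpa using ((hasDerivAt_id t).const_mul (-(S.r x)))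
    have h5 := h4.exp
    simpa only [neg_mul] using h5
  have h5 := h3.mul (h2.const_add (F x))
  have h6 : Real.exp (-(S.r x * t)) * Real.exp (S.r x * t) = 1 := by
    rw [← Real.exp_add]; simp
  have h7 : HasDerivAt (fun t => P S F G (n + 1) t x) _ t := h5
  convert h7 using 1
  have h8 : P S F G (n + 1) t x = Real.exp (-(S.r x * t)) *
      (F x + ∫ u in (0 : ℝ)..t, Real.exp (S.r x * u) * (G u x + ∑ s ∈ S.mv x, P S F G n u (S.act s x))) := rfl
  rw [h8]
  linear_combination (-(G t x + ∑ s ∈ S.mv x, P S F G n t (S.act s x))) * h6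

theorem P_zero (S : Sys X σ) (F : X → ℝ) (G : ℝ → X → ℝ) (n : ℕ) (x : X) : P S F G (n + 1) 0 x = F x := by
  simp [P]


/-- The bound. -/
theorem P_bound (S : Sys X σ) (F : X → ℝ) (G : ℝ → X → ℝ) (hG : ∀ x, Continuous fun t => G t x)
    {β γ A G₀ : ℝ} (hβ : 0 ≤ β) (hγ : 0 ≤ γ) (hA : 0 ≤ A) (hG0 : 0 ≤ G₀)
    (hcard : ∀ x, ((S.mv x).card : ℝ) ≤ S.r x + β) (hF : ∀ x, |F x| ≤ A)
    (hGb : ∀ t x, 0 ≤ t → |G t x| ≤ G₀ * Real.exp (γ * t)) (n : ℕ) :
    ∀ t x, 0 ≤ t → |P S F G n t x| ≤ (A + G₀ * t) * Real.exp ((β + γ) * t) := by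
  induction n with
  | zero =>
    intro t x ht
    simp only [P, abs_zero]
    positivity
  | succ n ih =>
    intro T x hT
    have hZ : ∀ t, HasDerivAt (fun t => (A + G₀ * t) * Real.exp ((β + γ) * t))
        (G₀ * Real.exp ((β + γ) * t) + (A + G₀ * t) * (Real.exp ((β + γ) * t) * (β + γ))) t := by
      intro t
      have h1 : HasDerivAt (fun t : ℝ => A + G₀ * t) G₀ t := by
        simpa using ((hasDerivAt_id t).const_mul G₀).const_add A
      have h2 : HasDerivAt (fun t : ℝ => (β + γ) * t) (β + γ) t := by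
        simpa using (hasDerivAt_id t).const_mul (β + γ)
      exact h1.mul h2.exp
    have key : ∀ e : ℝ, |e| = 1 → e * P S F G (n + 1) T x ≤ (A + G₀ * T) * Real.exp ((β + γ) * T) := by
      intro e he
      have := cmp (y := fun t => e * P S F G (n + 1) t x - (A + G₀ * t) * Real.exp ((β + γ) * t)) (r := S.r x)
        (T := T) (y' := fun t => e * (-(S.r x * P S F G (n + 1) t x) + (G t x + ∑ s ∈ S.mv x, P S F G n t (S.act s x)))
          - (G₀ * Real.exp ((β + γ) * t) + (A + G₀ * t) * (Real.exp ((β + γ) * t) * (β + γ))))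
        ?_ ?_ ?_ ?_ T ⟨hT, le_refl _⟩
      · linarith
      · refine Continuous.continuousOn ?_
        exact (continuous_const.mul (P_cont S F G hG (n+1) x)).sub (by fun_prop)
      · intro t ht
        exact ((P_deriv S F G hG n x t).const_mul e).sub (hZ t)
      · intro t ht
        have ht0 : 0 ≤ t := ht.1.le
        have hsum : |∑ s ∈ S.mv x, P S F G n t (S.act s x)| ≤
            (S.mv x).card * ((A + G₀ * t) * Real.exp ((β + γ) * t)) := by
          refine (Finset.abs_sum_le_sum_abs _ _).trans ?_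
          have := Finset.sum_le_sum (s := S.mv x) fun s _ => ih t (S.act s x) ht0
          simpa using this
        have hZ0 : 0 ≤ (A + G₀ * t) * Real.exp ((β + γ) * t) := by positivity
        have h1 : |e * (G t x + ∑ s ∈ S.mv x, P S F G n t (S.act s x))| ≤
            G₀ * Real.exp (γ * t) + (S.r x + β) * ((A + G₀ * t) * Real.exp ((β + γ) * t)) := by
          rw [abs_mul, he, one_mul]
          refine (abs_add_le _ _).trans ?_
          have := hGb t x ht0
          have h2 := mul_le_mul_of_nonneg_right (hcard x) hZ0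
          linarith
        have h3 := (abs_le.1 h1).2
        have h4 : Real.exp (γ * t) ≤ Real.exp ((β + γ) * t) := by
          apply Real.exp_le_exp.2; nlinarith
        have h5 : G₀ * Real.exp (γ * t) ≤ G₀ * Real.exp ((β + γ) * t) := mul_le_mul_of_nonneg_left h4 hG0
        have h6 : 0 ≤ γ * ((A + G₀ * t) * Real.exp ((β + γ) * t)) := mul_nonneg hγ hZ0
        nlinarith
      · simp only [P_zero, mul_zero, Real.exp_zero, mul_one, add_zero]
        have h1 : |e * F x| ≤ A := by rw [abs_mul, he, one_mul]; exact hF x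
        linarith [(abs_le.1 h1).2]
    rw [abs_le]
    constructor
    · have := key (-1) (by simp)
      linarith
    · have := key 1 (by simp)
      linarith

/-- Comparison of two approximations. -/
theorem P_cauchy (S : Sys X σ) (F : X → ℝ) (G : ℝ → X → ℝ) (hG : ∀ x, Continuous fun t => G t x)
    {φ : X → ℝ} {b T B : ℝ} (hS : Grow S φ b) (hB : 0 ≤ B) (M : ℝ) (hM : 0 < M)
    (hb : ∀ n, ∀ t ∈ Icc 0 T, ∀ x, |P S F G n t x| ≤ B) (k : ℕ) (n : ℕ) :
    ∀ t ∈ Icc 0 T, ∀ x, |P S F G (n + k) t x - P S F G n t x| ≤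
      2 * B * (Real.exp (b * t) * φ x / M + Real.exp (2 * M * t) / 2 ^ n) := by
  induction n with
  | zero =>
    intro t ht x
    have h1 := hb (0 + k) t ht x
    have h2 := hb 0 t ht x
    have h3 : 0 ≤ Real.exp (b * t) * φ x / M := by
      have := hS.phi0 x
      positivity
    have h4 : 1 ≤ Real.exp (2 * M * t) := by
      apply Real.one_le_exp
      have := ht.1
      positivity
    have h5 := (abs_sub (P S F G (0 + k) t x) (P S F G 0 t x))
    simp only [pow_zero, div_one]
    nlinarith [mul_nonneg hB h3]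
  | succ n ih =>
    intro t₁ ht₁ x
    have hphi := hS.phi0 x
    by_cases hx : M ≤ φ x
    · have h1 := hb (n + 1 + k) t₁ ht₁ x
      have h2 := hb (n + 1) t₁ ht₁ x
      have h5 := (abs_sub (P S F G (n + 1 + k) t₁ x) (P S F G (n + 1) t₁ x))
      have h3 : 1 ≤ Real.exp (b * t₁) * φ x / M := by
        rw [le_div_iff₀ hM]
        have h4 : 1 ≤ Real.exp (b * t₁) := by
          apply Real.one_le_exp
          have := ht₁.1
          have := hS.b0
          positivity
        nlinarith
      have h4 : 0 ≤ Real.exp (2 * M * t₁) / 2 ^ (n + 1) := by positivity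
      nlinarith [mul_nonneg hB h4]
    push Not at hx
    have hZ : ∀ t, HasDerivAt (fun t => 2 * B * (Real.exp (b * t) * φ x / M + Real.exp (2 * M * t) / 2 ^ (n + 1)))
        (2 * B * (Real.exp (b * t) * b * φ x / M + Real.exp (2 * M * t) * (2 * M) / 2 ^ (n + 1))) t := by
      intro t
      have h1 : HasDerivAt (fun t : ℝ => Real.exp (b * t)) (Real.exp (b * t) * b) t := by
        have h2 : HasDerivAt (fun t : ℝ => b * t) b t := by
          simpa using (hasDerivAt_id t).const_mul b
        exact h2.exp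
      have h2 : HasDerivAt (fun t : ℝ => Real.exp (2 * M * t)) (Real.exp (2 * M * t) * (2 * M)) t := by
        have h2 : HasDerivAt (fun t : ℝ => (2 * M) * t) (2 * M) t := by
          simpa using (hasDerivAt_id t).const_mul (2 * M)
        exact h2.exp
      exact (((h1.mul_const (φ x)).div_const M).add (h2.div_const (2 ^ (n + 1)))).const_mul (2 * B)
    have key : ∀ e : ℝ, |e| = 1 → ∀ t ∈ Icc 0 T, e * (P S F G (n + 1 + k) t x - P S F G (n + 1) t x) ≤
        2 * B * (Real.exp (b * t) * φ x / M + Real.exp (2 * M * t) / 2 ^ (n + 1)) := by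
      intro e he
      have hidx : n + 1 + k = (n + k) + 1 := by ring
      rw [hidx]
      have := cmp (y := fun t => e * (P S F G ((n + k) + 1) t x - P S F G (n + 1) t x) -
          2 * B * (Real.exp (b * t) * φ x / M + Real.exp (2 * M * t) / 2 ^ (n + 1))) (r := S.r x)
        (T := T) (y' := fun t => e * ((-(S.r x * P S F G ((n + k) + 1) t x) +
              (G t x + ∑ s ∈ S.mv x, P S F G (n + k) t (S.act s x))) -
            (-(S.r x * P S F G (n + 1) t x) + (G t x + ∑ s ∈ S.mv x, P S F G n t (S.act s x))))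
          - (2 * B * (Real.exp (b * t) * b * φ x / M + Real.exp (2 * M * t) * (2 * M) / 2 ^ (n + 1))))
        ?_ ?_ ?_ ?_
      · intro t ht
        have := this t ht
        linarith
      · refine Continuous.continuousOn ?_
        exact (continuous_const.mul ((P_cont S F G hG _ x).sub (P_cont S F G hG _ x))).sub (by fun_prop)
      · intro t ht
        exact (((P_deriv S F G hG (n + k) x t).sub (P_deriv S F G hG n x t)).const_mul e).sub (hZ t)
      · intro t ht
        have ht' : t ∈ Icc 0 T := ⟨ht.1.le, ht.2.le⟩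
        have ht0 : 0 ≤ t := ht.1.le
        have hsum : |e * (∑ s ∈ S.mv x, P S F G (n + k) t (S.act s x) - ∑ s ∈ S.mv x, P S F G n t (S.act s x))| ≤
            2 * B * (Real.exp (b * t) * ((S.r x + b) * φ x) / M + M * (Real.exp (2 * M * t) / 2 ^ n)) := by
          rw [abs_mul, he, one_mul, ← Finset.sum_sub_distrib]
          refine (Finset.abs_sum_le_sum_abs _ _).trans ?_
          refine (Finset.sum_le_sum (s := S.mv x) fun s _ => ih t ht' (S.act s x)).trans ?_
          rw [← Finset.mul_sum, Finset.sum_add_distrib, Finset.sum_const, nsmul_eq_mul, ← Finset.sum_div,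
            ← Finset.mul_sum]
          refine mul_le_mul_of_nonneg_left ?_ (by positivity)
          refine add_le_add ?_ ?_
          · exact div_le_div_of_nonneg_right (mul_le_mul_of_nonneg_left (hS.drift x) (Real.exp_pos _).le) hM.le
          · refine mul_le_mul_of_nonneg_right ?_ (by positivity)
            exact (hS.card x).trans hx.le
        have h3 := (abs_le.1 hsum).2
        have h4 : Real.exp (2 * M * t) * (2 * M) / 2 ^ (n + 1) = M * (Real.exp (2 * M * t) / 2 ^ n) := by
          rw [pow_succ]; field_simp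
        have h5 : 0 ≤ S.r x * (2 * B * (Real.exp (2 * M * t) / 2 ^ (n + 1))) := by
          have := hS.r0 x
          positivity
        have h6 : Real.exp (b * t) * ((S.r x + b) * φ x) / M = S.r x * (Real.exp (b * t) * φ x / M) +
            Real.exp (b * t) * b * φ x / M := by ring
        rw [h4]
        rw [h6] at h3
        nlinarith
      · simp only [P_zero, sub_self, mul_zero, Real.exp_zero]
        have : 0 ≤ 2 * B * (1 * φ x / M + 1 / 2 ^ (n + 1)) := by positivity
        linarith
    rw [abs_le]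
    constructor
    · have := key (-1) (by simp) t₁ ht₁
      linarith
    · have := key 1 (by simp) t₁ ht₁
      linarith


/-- Uniform Cauchy property on `[0, T]`. -/
theorem P_unif (S : Sys X σ) (F : X → ℝ) (G : ℝ → X → ℝ) (hG : ∀ x, Continuous fun t => G t x)
    {φ : X → ℝ} {b T B : ℝ} (hS : Grow S φ b) (hB : 0 ≤ B)
    (hb : ∀ n, ∀ t ∈ Icc 0 T, ∀ x, |P S F G n t x| ≤ B) (x : X) (ε : ℝ) (hε : 0 < ε) :
    ∃ N : ℕ, ∀ m n : ℕ, N ≤ n → n ≤ m → ∀ t ∈ Icc 0 T, |P S F G m t x - P S F G n t x| ≤ ε := by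
  have hphi := hS.phi0 x
  set K : ℝ := 2 * B * Real.exp (b * T) * φ x with hK
  have hK0 : 0 ≤ K := by positivity
  set M : ℝ := 2 * (K + 1) / ε with hM
  have hM0 : 0 < M := by positivity
  obtain ⟨N, hN⟩ := pow_unbounded_of_one_lt (2 * (2 * B * Real.exp (2 * M * T)) / ε) (one_lt_two (α := ℝ))
  refine ⟨N, fun m n hn hm t ht => ?_⟩
  obtain ⟨k, rfl⟩ := Nat.exists_eq_add_of_le hm
  refine (P_cauchy S F G hG hS hB M hM0 hb k n t ht x).trans ?_
  have h1 : Real.exp (b * t) ≤ Real.exp (b * T) := by
    apply Real.exp_le_exp.2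
    have := hS.b0
    nlinarith [ht.2]
  have h2 : Real.exp (2 * M * t) ≤ Real.exp (2 * M * T) := by
    apply Real.exp_le_exp.2
    nlinarith [ht.2]
  have h3 : 2 * B * (Real.exp (b * t) * φ x / M) ≤ ε / 2 := by
    have h4 : 2 * B * (Real.exp (b * t) * φ x / M) ≤ K / M := by
      rw [hK, ← mul_div_assoc]
      apply div_le_div_of_nonneg_right _ hM0.le
      have : Real.exp (b * t) * φ x ≤ Real.exp (b * T) * φ x := mul_le_mul_of_nonneg_right h1 hphi
      nlinarith
    refine h4.trans ?_
    rw [div_le_iff₀ hM0, hM]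
    field_simp
    linarith
  have h4 : 2 * B * (Real.exp (2 * M * t) / 2 ^ n) ≤ ε / 2 := by
    have h5 : (2 : ℝ) ^ N ≤ 2 ^ n := pow_le_pow_right₀ (by norm_num) hn
    have h6 : (0 : ℝ) < 2 ^ n := by positivity
    rw [← mul_div_assoc, div_le_iff₀ h6]
    rw [div_lt_iff₀ hε] at hN
    have h7 : 2 * B * Real.exp (2 * M * t) ≤ 2 * B * Real.exp (2 * M * T) :=
      mul_le_mul_of_nonneg_left h2 (by positivity)
    nlinarith
  linarith

/-- EX. -/
theorem t_EX : S_EX := by
  intro X σ S φ b β γ A G₀ F G hS hβ hγ hA hG0 hcard hF hG hGb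
  classical
  have hbd := P_bound S F G hG hβ hγ hA hG0 hcard hF hGb
  have hBT : ∀ T : ℝ, 0 ≤ T → ∀ n, ∀ t ∈ Icc 0 T, ∀ x, |P S F G n t x| ≤ (A + G₀ * T) * Real.exp ((β + γ) * T) := by
    intro T hT n t ht x
    refine (hbd n t x ht.1).trans ?_
    have h1 : Real.exp ((β + γ) * t) ≤ Real.exp ((β + γ) * T) := by
      apply Real.exp_le_exp.2
      have := ht.2
      nlinarith [add_nonneg hβ hγ]
    have h2 : A + G₀ * t ≤ A + G₀ * T := by nlinarith [ht.2]
    exact mul_le_mul h2 h1 (Real.exp_pos _).le (by positivity)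
  have hU : ∀ T : ℝ, 0 ≤ T → ∀ x, ∀ ε : ℝ, 0 < ε → ∃ N : ℕ, ∀ m n : ℕ, N ≤ n → n ≤ m →
      ∀ t ∈ Icc 0 T, |P S F G m t x - P S F G n t x| ≤ ε := fun T hT x ε hε =>
    P_unif S F G hG hS (by positivity) (hBT T hT) x ε hε
  have hlim : ∀ t : ℝ, 0 ≤ t → ∀ x, ∃ l, Tendsto (fun n => P S F G n t x) atTop (𝓝 l) := by
    intro t ht x
    apply cauchySeq_tendsto_of_complete
    rw [Metric.cauchySeq_iff']
    intro ε hε
    obtain ⟨N, hN⟩ := hU t ht x (ε / 2) (by positivity)
    refine ⟨N, fun n hn => ?_⟩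
    rw [Real.dist_eq]
    have := hN n N le_rfl hn t ⟨ht, le_rfl⟩
    linarith
  set u : ℝ → X → ℝ := fun t x => limUnder atTop (fun n => P S F G n t x) with hu
  have hut : ∀ t : ℝ, 0 ≤ t → ∀ x, Tendsto (fun n => P S F G n t x) atTop (𝓝 (u t x)) := by
    intro t ht x
    exact tendsto_nhds_limUnder (hlim t ht x)
  have hunif : ∀ T : ℝ, 0 ≤ T → ∀ x, TendstoUniformlyOn (fun n t => P S F G n t x) (fun t => u t x) atTop (Icc 0 T) := by
    intro T hT x
    rw [Metric.tendstoUniformlyOn_iff]
    intro ε hε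
    obtain ⟨N, hN⟩ := hU T hT x (ε / 2) (by positivity)
    filter_upwards [eventually_ge_atTop N] with n hn t ht
    rw [Real.dist_eq]
    have h1 : Tendsto (fun m => |P S F G m t x - P S F G n t x|) atTop (𝓝 |u t x - P S F G n t x|) :=
      ((hut t ht.1 x).sub_const _).abs
    have h2 : |u t x - P S F G n t x| ≤ ε / 2 := by
      refine le_of_tendsto h1 ?_
      filter_upwards [eventually_ge_atTop n] with m hm
      exact hN m n hn hm t ht
    linarith
  refine ⟨u, ?_, ?_, ?_, ?_⟩
  · intro x
    refine tendsto_nhds_unique (hut 0 le_rfl x) ?_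
    refine tendsto_const_nhds.congr' ?_
    filter_upwards [eventually_ge_atTop 1] with n hn
    obtain ⟨k, rfl⟩ := Nat.exists_eq_add_of_le' hn
    exact (P_zero S F G k x).symm
  · intro x
    have h1 : ∀ T : ℝ, 0 ≤ T → ContinuousOn (fun t => u t x) (Icc 0 T) := fun T hT =>
      (hunif T hT x).continuousOn (Frequently.of_forall fun n => (P_cont S F G hG n x).continuousOn)
    intro t ht
    have ht0 : (0 : ℝ) ≤ t := ht
    have h2 := h1 (t + 1) (by linarith) t ⟨ht0, by linarith⟩
    refine h2.mono_of_mem_nhdsWithin ?_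
    rw [mem_nhdsWithin]
    refine ⟨Iio (t + 1), isOpen_Iio, by simp, ?_⟩
    rintro y ⟨hy1, hy2⟩
    exact ⟨hy2, (le_of_lt hy1)⟩
  · intro x t ht
    have hopen : IsOpen (Ioo (0 : ℝ) (t + 1)) := isOpen_Ioo
    have hT : (0 : ℝ) ≤ t + 1 := by linarith
    have hsub : Ioo (0 : ℝ) (t + 1) ⊆ Icc 0 (t + 1) := Ioo_subset_Icc_self
    have h1 : TendstoUniformlyOn (fun n t => P S F G (n + 1) t x) (fun t => u t x) atTop (Ioo 0 (t + 1)) := by
      have := (hunif (t + 1) hT x).mono hsub
      rw [Metric.tendstoUniformlyOn_iff] at this ⊢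
      intro ε hε
      have h2 := this ε hε
      rw [eventually_atTop] at h2 ⊢
      obtain ⟨a, ha⟩ := h2
      exact ⟨a, fun n hn => ha (n + 1) (by omega)⟩
    have h2 : TendstoUniformlyOn (fun n t => ∑ s ∈ S.mv x, P S F G n t (S.act s x))
        (fun t => ∑ s ∈ S.mv x, u t (S.act s x)) atTop (Ioo 0 (t + 1)) := by
      induction S.mv x using Finset.induction_on with
      | empty =>
        simp only [Finset.sum_empty]
        rw [Metric.tendstoUniformlyOn_iff]
        intro ε hε
        filter_upwards with n t _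
        simpa using hε
      | insert a s ha ih =>
        simp only [Finset.sum_insert ha]
        exact ((hunif (t + 1) hT _).mono hsub).add ih
    have h3 : TendstoUniformlyOn (fun n t => -(S.r x * P S F G (n + 1) t x) + (G t x +
        ∑ s ∈ S.mv x, P S F G n t (S.act s x)))
        (fun t => rhs S (u t) x + G t x) atTop (Ioo 0 (t + 1)) := by
      rw [Metric.tendstoUniformlyOn_iff] at h1 h2 ⊢
      intro ε hε
      have hr := hS.r0 x
      have e1 := h1 (ε / 2 / (S.r x + 1)) (by positivity)
      have e2 := h2 (ε / 2) (by positivity)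
      filter_upwards [e1, e2] with n h1n h2n t ht
      have h4 := h1n t ht
      have h5 := h2n t ht
      rw [Real.dist_eq] at h4 h5 ⊢
      rw [lt_div_iff₀ (by positivity)] at h4
      have h6 : rhs S (u t) x + G t x - (-(S.r x * P S F G (n + 1) t x) + (G t x +
          ∑ s ∈ S.mv x, P S F G n t (S.act s x))) =
          (∑ s ∈ S.mv x, u t (S.act s x) - ∑ s ∈ S.mv x, P S F G n t (S.act s x)) -
            S.r x * (u t x - P S F G (n + 1) t x) := by
        simp only [rhs]; ring
      rw [h6]
      refine (abs_sub _ _).trans_lt ?_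
      rw [abs_mul, abs_of_nonneg hr]
      have h7 := abs_nonneg (u t x - P S F G (n + 1) t x)
      nlinarith
    refine hasDerivAt_of_tendstoUniformlyOn hopen h3 ?_ ?_ (x := t) ⟨ht, by linarith⟩ (f := fun n t => P S F G (n + 1) t x)
    · filter_upwards with n t _
      exact P_deriv S F G hG n x t
    · intro t ht
      exact h1.tendsto_at ht
  · intro x t ht
    refine le_of_tendsto (hut t ht x).abs ?_
    filter_upwards with n
    exact hbd n t x ht

end Pool.Agent.D0H87.UR
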